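import Pool.Agent.Q286.GB.Stm
import Pool.Agent.Q149.BD.U3

set_option autoImplicit false

/-!
# Project GB, job UP: the upper bound for every L-function

Adapted from `Pool/Agent/Q149/BD/{U2,U4,U}.lean` (helper149, zeta function).
-/

namespace Pool.Agent.Q174.GB

open Complex MeasureTheory Filter Topology Set
open Pool.Agent.Q286.BD (cl Lam ML Lap Wt V Fm Pl S_asm S_cost S_loc)
open Pool.Agent.Q286.GB
open Pool.Agent.Q149.BD (DP DP_Pl floor_mul_le continuous_cl Bd Lam_ge log_Lam_ge qq tendsto_cost V_abs_le)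

theorem DP_AAO (O : LFn) (φ : ℝ → ℝ) (L : ℝ) : DP ⌊Real.exp L⌋₊ (fun t => AA O φ L (cl t)) :=
  ⟨fun n => O.mu n * ((V φ (Real.log n / L) : ℝ) : ℂ), fun _ => rfl⟩

theorem continuous_L (O : LFn) : Continuous fun t : ℝ => O.L (cl t) :=
  O.entire.continuous.comp continuous_cl

/-- `L A - 1` on the line -/
noncomputable def WO (O : LFn) (φ : ℝ → ℝ) (L t : ℝ) : ℂ := O.L (cl t) * AA O φ L (cl t) - 1

theorem continuous_WO (O : LFn) (φ : ℝ → ℝ) (L : ℝ) : Continuous (WO O φ L) :=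
  ((continuous_L O).mul (DP_AAO O φ L).continuous).sub continuous_const

/-- the total mass of the inverse coefficients -/
noncomputable def Mu (O : LFn) : ℝ := ∑' n : ℕ, ‖O.mu n‖ * (n : ℝ) ^ (-2 : ℝ)

theorem Mu_nonneg (O : LFn) : 0 ≤ Mu O := tsum_nonneg fun n => by positivity

theorem norm_AAO_le (O : LFn) {β : ℝ} {φ : ℝ → ℝ} (h : Wt β φ) (L t : ℝ) :
    ‖AA O φ L (cl t)‖ ≤ (∫ v, |φ v|) * Mu O * Real.exp (3 * L / 2) := by
  have hM : 0 ≤ ∫ v, |φ v| := integral_nonneg fun v => abs_nonneg _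
  unfold AA
  calc ‖∑ n ∈ Finset.Icc 1 ⌊Real.exp L⌋₊, O.mu n * ((V φ (Real.log n / L) : ℝ) : ℂ) * (n : ℂ) ^ (-cl t)‖
      ≤ ∑ n ∈ Finset.Icc 1 ⌊Real.exp L⌋₊, (∫ v, |φ v|) * Real.exp (3 * L / 2) *
          (‖O.mu n‖ * (n : ℝ) ^ (-2 : ℝ)) := by
        refine norm_sum_le_of_le _ fun n hn => ?_
        have hn1 : 1 ≤ n := (Finset.mem_Icc.1 hn).1
        have hn2 : (n : ℝ) ≤ Real.exp L :=
          (Nat.cast_le.2 (Finset.mem_Icc.1 hn).2).trans (Nat.floor_le (Real.exp_pos L).le)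
        have hn0 : (0 : ℝ) < n := by exact_mod_cast hn1
        have e2 : ‖((V φ (Real.log n / L) : ℝ) : ℂ)‖ ≤ ∫ v, |φ v| := by
          rw [Complex.norm_real, Real.norm_eq_abs]
          exact V_abs_le h _
        have e3 : ‖(n : ℂ) ^ (-cl t)‖ ≤ (n : ℝ) ^ (-2 : ℝ) * Real.exp (3 * L / 2) := by
          rw [Complex.norm_natCast_cpow_of_pos (by omega)]
          have h1 : (-cl t).re = -2 + 3 / 2 := by simp [cl]; norm_num
          rw [h1, Real.rpow_add hn0]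
          gcongr
          calc (n : ℝ) ^ (3 / 2 : ℝ) ≤ Real.exp L ^ (3 / 2 : ℝ) :=
                Real.rpow_le_rpow hn0.le hn2 (by norm_num)
            _ = Real.exp (3 * L / 2) := by
              rw [← Real.exp_mul]
              congr 1
              ring
        rw [norm_mul, norm_mul]
        calc ‖O.mu n‖ * ‖((V φ (Real.log n / L) : ℝ) : ℂ)‖ * ‖(n : ℂ) ^ (-cl t)‖
            ≤ ‖O.mu n‖ * (∫ v, |φ v|) * ((n : ℝ) ^ (-2 : ℝ) * Real.exp (3 * L / 2)) := by gcongr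
          _ = _ := by ring
    _ = (∫ v, |φ v|) * Real.exp (3 * L / 2) *
          ∑ n ∈ Finset.Icc 1 ⌊Real.exp L⌋₊, (‖O.mu n‖ * (n : ℝ) ^ (-2 : ℝ)) := by
        rw [Finset.mul_sum]
    _ ≤ (∫ v, |φ v|) * Real.exp (3 * L / 2) * Mu O := by
        gcongr
        exact O.mu_sum.sum_le_tsum _ fun n _ => by positivity
    _ = _ := by ring

/-- subpolynomial growth -/
theorem ML_growth {C : ℝ} (hC : 0 < C) :
    ∃ C' : ℝ, 0 < C' ∧ ∀ t : ℝ, Real.exp (C * ML t) ≤ C' * (1 + |t|) ^ (1 / 8 : ℝ) := by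
  refine ⟨2 + Real.exp (C * Real.exp (8 * C)), by positivity, fun t => ?_⟩
  have hL : 0 < Lam t := (Real.exp_pos 1).trans_le (Lam_ge t)
  have hll := log_Lam_ge t
  have hpow : (1 : ℝ) ≤ (1 + |t|) ^ (1 / 8 : ℝ) :=
    Real.one_le_rpow (by linarith [abs_nonneg t]) (by norm_num)
  rcases le_or_gt (8 * C) (Real.log (Lam t)) with h8 | h8
  · have h1 : C * ML t ≤ Lam t * (1 / 8) := by
      unfold ML
      rw [mul_div_assoc', div_le_iff₀ (by linarith)]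
      nlinarith
    have h2 : Real.exp (C * ML t) ≤ (|t| + 16) ^ (1 / 8 : ℝ) := by
      rw [Real.rpow_def_of_pos (by positivity)]
      exact Real.exp_le_exp.2 h1
    have h3 : (|t| + 16) ^ (1 / 8 : ℝ) ≤ 2 * (1 + |t|) ^ (1 / 8 : ℝ) := by
      have h4 : (16 : ℝ) ^ (1 / 8 : ℝ) ≤ 2 := by
        have : (16 : ℝ) ^ (1 / 8 : ℝ) ≤ (2 ^ (8 : ℝ)) ^ (1 / 8 : ℝ) := by
          apply Real.rpow_le_rpow (by norm_num) _ (by norm_num)
          norm_num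
        refine this.trans ?_
        rw [← Real.rpow_mul (by norm_num)]
        norm_num
      calc (|t| + 16) ^ (1 / 8 : ℝ) ≤ (16 * (1 + |t|)) ^ (1 / 8 : ℝ) := by
            apply Real.rpow_le_rpow (by positivity) _ (by norm_num)
            linarith [abs_nonneg t]
        _ = 16 ^ (1 / 8 : ℝ) * (1 + |t|) ^ (1 / 8 : ℝ) := Real.mul_rpow (by norm_num) (by positivity)
        _ ≤ 2 * (1 + |t|) ^ (1 / 8 : ℝ) := by gcongr
    calc Real.exp (C * ML t) ≤ 2 * (1 + |t|) ^ (1 / 8 : ℝ) := h2.trans h3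
      _ ≤ (2 + Real.exp (C * Real.exp (8 * C))) * (1 + |t|) ^ (1 / 8 : ℝ) := by
          gcongr
          linarith [Real.exp_pos (C * Real.exp (8 * C))]
  · have h1 : Lam t ≤ Real.exp (8 * C) := by
      rw [← Real.log_le_iff_le_exp hL]
      exact h8.le
    have h2 : ML t ≤ Lam t := by
      unfold ML
      rw [div_le_iff₀ (by linarith)]
      nlinarith
    have h3 : Real.exp (C * ML t) ≤ Real.exp (C * Real.exp (8 * C)) := by
      apply Real.exp_le_exp.2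
      gcongr
      exact h2.trans h1
    calc Real.exp (C * ML t) ≤ Real.exp (C * Real.exp (8 * C)) := h3
      _ ≤ (2 + Real.exp (C * Real.exp (8 * C))) * 1 := by linarith
      _ ≤ (2 + Real.exp (C * Real.exp (8 * C))) * (1 + |t|) ^ (1 / 8 : ℝ) := by gcongr

theorem Bd_WO_of (O : LFn) {β : ℝ} {φ : ℝ → ℝ} (hφ : Wt β φ)
    {C1 : ℝ} (hC1 : 0 < C1) (hz : ∀ t : ℝ, ‖O.L (cl t)‖ ≤ C1 * (1 + |t|) ^ (1 / 8 : ℝ))
    {C L0 : ℝ} (hC : 0 < C) (hL0 : 1 ≤ L0)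
    (hd : ∀ L : ℝ, L0 ≤ L → ∀ t d : ℝ, |t| ≤ Real.exp (10 * L) →
      0 < d → d ≤ 1 → (∀ g : ℝ, O.L (cl g) = 0 → d ≤ |g - t|) →
      ‖O.L (cl t) * AA O φ L (cl t) - 1‖ ≤ C * (1 + |t|) ^ (3 / 8 : ℝ) / (1 + L * d)) :
    ∃ C' : ℝ, 0 < C' ∧ Bd (Z O) (WO O φ) C' L0 := by
  set M := (∫ v, |φ v|) * Mu O with hM
  have hM0 : 0 ≤ M := mul_nonneg (integral_nonneg fun v => abs_nonneg _) (Mu_nonneg O)
  refine ⟨C + (C1 * M + 1), by positivity, fun L hL t d ht hd0 hd1 hg => ?_, fun L hL t ht => ?_⟩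
  · refine (hd L hL t d ht hd0 hd1 fun g hg' => hg g hg').trans ?_
    have : 0 < 1 + L * d := by
      have : 0 ≤ L := by linarith
      positivity
    gcongr
    nlinarith
  · have hL' : 1 ≤ L := hL0.trans hL
    have h1 : ‖WO O φ L t‖ ≤ C1 * (1 + |t|) ^ (1 / 8 : ℝ) * (M * Real.exp (3 * L / 2)) + 1 := by
      unfold WO
      refine (norm_sub_le _ _).trans ?_
      rw [norm_mul, norm_one]
      gcongr
      · exact hz t
      · exact norm_AAO_le O hφ L t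
    have ht1 : Real.exp (10 * L) ≤ 1 + |t| := by linarith
    have h0 : (0 : ℝ) < 1 + |t| := by positivity
    have h2 : Real.exp L ≤ (1 + |t|) ^ (1 / 8 : ℝ) := by
      have h3 : Real.exp L = Real.exp (10 * L) ^ (1 / 10 : ℝ) := by
        rw [← Real.exp_mul]; congr 1; ring
      calc Real.exp L = Real.exp (10 * L) ^ (1 / 10 : ℝ) := h3
        _ ≤ (1 + |t|) ^ (1 / 10 : ℝ) := Real.rpow_le_rpow (Real.exp_pos _).le ht1 (by norm_num)
        _ ≤ (1 + |t|) ^ (1 / 8 : ℝ) := Real.rpow_le_rpow_of_exponent_le (by linarith [abs_nonneg t]) (by norm_num)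
    have h4 : (1 + |t|) ^ (1 / 4 : ℝ) = (1 + |t|) ^ (1 / 8 : ℝ) * (1 + |t|) ^ (1 / 8 : ℝ) := by
      rw [← Real.rpow_add h0]; norm_num
    have h5 : Real.exp (3 * L / 2) = Real.exp (L / 2) * Real.exp L := by
      rw [← Real.exp_add]; congr 1; ring
    have h6 : 1 ≤ Real.exp (L / 2) := Real.one_le_exp (by linarith)
    have h7 : 1 ≤ (1 + |t|) ^ (1 / 4 : ℝ) := Real.one_le_rpow (by linarith [abs_nonneg t]) (by norm_num)
    calc ‖WO O φ L t‖ ≤ C1 * (1 + |t|) ^ (1 / 8 : ℝ) * (M * Real.exp (3 * L / 2)) + 1 := h1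
      _ = C1 * M * (Real.exp (L / 2) * ((1 + |t|) ^ (1 / 8 : ℝ) * Real.exp L)) + 1 := by rw [h5]; ring
      _ ≤ C1 * M * (Real.exp (L / 2) * ((1 + |t|) ^ (1 / 8 : ℝ) * (1 + |t|) ^ (1 / 8 : ℝ))) +
          1 * (Real.exp (L / 2) * (1 + |t|) ^ (1 / 4 : ℝ)) := by
          gcongr
          rw [one_mul]
          exact one_le_mul_of_one_le_of_one_le h6 h7
      _ = (C1 * M + 1) * (Real.exp (L / 2) * (1 + |t|) ^ (1 / 4 : ℝ)) := by rw [h4]; ring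
      _ ≤ (C + (C1 * M + 1)) * (Real.exp (L / 2) * (1 + |t|) ^ (1 / 4 : ℝ)) := by
          refine mul_le_mul_of_nonneg_right ?_ (by positivity)
          linarith

theorem asm_of_BdO (h4 : S_asm) {G : Set ℝ} (K0 : ℝ)
    (hK : ∀ T : ℝ, (G ∩ Icc T (T + 1)).Finite ∧ ((G ∩ Icc T (T + 1)).ncard : ℝ) ≤ K0 * Real.log (|T| + 2))
    {U : ℝ → ℝ → ℂ} {u : ℝ → ℝ → ℂ} {C L0 : ℝ} (hC : 0 < C) (hL0 : 1 ≤ L0) (hm : ∀ L, Continuous (U L))
    (hB : Bd G U C L0)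
    (hlim : ∀ g ∈ G, ∀ x : ℝ, Tendsto (fun L : ℝ => U L (g + x / L)) atTop (𝓝 (u g x))) :
    (∀ g ∈ G, Integrable (fun x : ℝ => ‖u g x‖ ^ 2)) ∧
    Summable (fun g : G => (∫ x : ℝ, ‖u g x‖ ^ 2) / (1 / 4 + (g : ℝ) ^ 2)) ∧
    (∀ L : ℝ, L0 ≤ L → Integrable (fun t : ℝ => ‖U L t‖ ^ 2 / (1 / 4 + t ^ 2))) ∧
    ∀ η : ℝ, 0 < η → ∀ᶠ L : ℝ in atTop, L * ∫ t : ℝ, ‖U L t‖ ^ 2 / (1 / 4 + t ^ 2) ≤
      ∑' g : G, (∫ x : ℝ, ‖u g x‖ ^ 2) / (1 / 4 + (g : ℝ) ^ 2) + η :=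
  h4 G K0 hK U u (C + C ^ 2) L0 (by positivity) hL0 (fun L => (hm L).measurable)
    (fun L hL t d ht hd hd1 hg => (hB.1 L hL t d ht hd hd1 hg).trans (by
      have h1 : 0 < 1 + L * d := by
        have : 0 ≤ L := by linarith
        positivity
      gcongr
      nlinarith [sq_nonneg C]))
    (fun L hL t ht => by
      have h1 := hB.2 L hL t ht
      have h2 : ‖U L t‖ ^ 2 ≤ (C * (Real.exp (L / 2) * (1 + |t|) ^ (1 / 4 : ℝ))) ^ 2 := by gcongr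
      have h3 : (1 + |t|) ^ (1 / 2 : ℝ) = ((1 + |t|) ^ (1 / 4 : ℝ)) ^ 2 := by
        rw [← Real.rpow_natCast, ← Real.rpow_mul (by positivity)]; norm_num
      have h4 : Real.exp L = Real.exp (L / 2) ^ 2 := by
        rw [← Real.exp_nat_mul]; congr 1; push_cast; ring
      rw [h3, h4]
      calc ‖U L t‖ ^ 2 ≤ (C * (Real.exp (L / 2) * (1 + |t|) ^ (1 / 4 : ℝ))) ^ 2 := h2
        _ = C ^ 2 * Real.exp (L / 2) ^ 2 * ((1 + |t|) ^ (1 / 4 : ℝ)) ^ 2 := by ring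
        _ ≤ (C + C ^ 2) * Real.exp (L / 2) ^ 2 * ((1 + |t|) ^ (1 / 4 : ℝ)) ^ 2 := by
            gcongr
            linarith)
    hlim

/-- the localised combination -/
noncomputable def UO (O : LFn) (S : Finset (Z O)) (φ : ℝ → ℝ) (ψ : Z O → ℝ → ℝ) (e L t : ℝ) : ℂ :=
  WO O φ L t + ∑ g ∈ S, Pl g (e * L) t * (WO O (ψ g) L t - WO O φ L t)

/-- its mollifier -/
noncomputable def MO (O : LFn) (S : Finset (Z O)) (φ : ℝ → ℝ) (ψ : Z O → ℝ → ℝ) (e L t : ℝ) : ℂ :=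
  AA O φ L (cl t) + ∑ g ∈ S, Pl g (e * L) t * (AA O (ψ g) L (cl t) - AA O φ L (cl t))

theorem UO_eq (O : LFn) (S : Finset (Z O)) (φ : ℝ → ℝ) (ψ : Z O → ℝ → ℝ) (e L t : ℝ) :
    UO O S φ ψ e L t = O.L (cl t) * MO O S φ ψ e L t - 1 := by
  unfold UO MO WO
  rw [mul_add, Finset.mul_sum]
  have : ∀ g ∈ S, Pl g (e * L) t * (O.L (cl t) * AA O (ψ g) L (cl t) - 1 - (O.L (cl t) * AA O φ L (cl t) - 1)) =
      O.L (cl t) * (Pl g (e * L) t * (AA O (ψ g) L (cl t) - AA O φ L (cl t))) := fun g _ => by ring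
  rw [Finset.sum_congr rfl this]
  ring

theorem DP_MO (O : LFn) (S : Finset (Z O)) (φ : ℝ → ℝ) (ψ : Z O → ℝ → ℝ) {e L : ℝ} {N : ℕ} (he : 0 ≤ e)
    (hL : 0 ≤ L) (hN : Real.exp (e * L + L) ≤ N) : DP N (fun t => MO O S φ ψ e L t) := by
  have h1 : ⌊Real.exp L⌋₊ ≤ N := by
    have h2 : Real.exp L ≤ N := (Real.exp_le_exp.2 (by nlinarith)).trans hN
    have h3 := (Nat.floor_le (Real.exp_pos L).le).trans h2
    exact_mod_cast h3
  unfold MO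
  refine DP.add ((DP_AAO O φ L).mono h1) (DP.sum S _ fun g _ => ?_)
  exact DP.mul (floor_mul_le hN) (DP_Pl g (e * L)) ((DP_AAO O (ψ g) L).sub (DP_AAO O φ L))

theorem UO_continuous (O : LFn) (S : Finset (Z O)) (φ : ℝ → ℝ) (ψ : Z O → ℝ → ℝ) (e L : ℝ) :
    Continuous (UO O S φ ψ e L) := by
  unfold UO
  refine (continuous_WO O φ L).add (continuous_finsetSum _ fun g _ => ?_)
  exact ((DP_Pl g (e * L)).continuous).mul ((continuous_WO O (ψ g) L).sub (continuous_WO O φ L))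

/-- the limit of the combination -/
noncomputable def uO (O : LFn) (S : Finset (Z O)) (φ : ℝ → ℝ) (ψ : Z O → ℝ → ℝ) (e g x : ℝ) : ℂ :=
  Fm (mz O g) φ x + ∑ g' ∈ S, (@ite ℂ ((g' : ℝ) = g) (Classical.propDecidable _) (qq e x) 0) *
    (Fm (mz O g) (ψ g') x - Fm (mz O g) φ x)

theorem uO_of_mem {O : LFn} {S : Finset (Z O)} (φ : ℝ → ℝ) (ψ : Z O → ℝ → ℝ) (e x : ℝ) {g : Z O} (hg : g ∈ S) :
    uO O S φ ψ e g x = Fm (mz O g) φ x + qq e x * (Fm (mz O g) (ψ g) x - Fm (mz O g) φ x) := by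
  unfold uO
  congr 1
  rw [Finset.sum_eq_single g]
  · rw [if_pos rfl]
  · intro b _ hb
    rw [if_neg (fun h => hb (Subtype.ext h)), zero_mul]
  · intro h
    exact absurd hg h

theorem uO_of_not_mem {O : LFn} {S : Finset (Z O)} (φ : ℝ → ℝ) (ψ : Z O → ℝ → ℝ) (e x : ℝ) {g : Z O}
    (hg : g ∉ S) : uO O S φ ψ e g x = Fm (mz O g) φ x := by
  unfold uO
  rw [Finset.sum_eq_zero, add_zero]
  intro b hb
  rw [if_neg (fun h => hg (by rwa [← Subtype.ext h])), zero_mul]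

/-- `L A - 1` tends to the limit near a zero -/
theorem WO_lim (h3 : S_LIM) (O : Obj) (hRH : RH O.toLFn) {β : ℝ} (hβ : 0 < β) {φ : ℝ → ℝ} (hφ : Wt β φ)
    {g : ℝ} (hg : g ∈ Z O.toLFn) (x : ℝ) :
    Tendsto (fun L : ℝ => WO O.toLFn φ L (g + x / L)) atTop (𝓝 (Fm (mz O.toLFn g) φ x)) := by
  have h := (h3 O hRH β φ hβ hφ g x hg).sub_const 1
  rw [add_sub_cancel_left] at h
  exact h

theorem UO_lim (h3 : S_LIM) (h6 : S_loc) (O : Obj) (hRH : RH O.toLFn) {β : ℝ} (hβ : 0 < β) {φ : ℝ → ℝ}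
    (hφ : Wt β φ) (S : Finset (Z O.toLFn)) {ψ : Z O.toLFn → ℝ → ℝ} (hψ : ∀ g ∈ S, Wt β (ψ g)) {e : ℝ}
    (he : 0 < e) {g : ℝ} (hg : g ∈ Z O.toLFn) (x : ℝ) :
    Tendsto (fun L : ℝ => UO O.toLFn S φ ψ e L (g + x / L)) atTop (𝓝 (uO O.toLFn S φ ψ e g x)) := by
  unfold UO uO
  refine (WO_lim h3 O hRH hβ hφ hg x).add (tendsto_finsetSum _ fun g' hg' => ?_)
  refine Tendsto.mul ?_ ((WO_lim h3 O hRH hβ (hψ g' hg') hg x).sub (WO_lim h3 O hRH hβ hφ hg x))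
  split_ifs with h
  · rw [h]
    exact h6.2.1 g e x he
  · exact h6.2.2 g' g e x he (fun h' => h h'.symm)

theorem Bd_UO (h6 : S_loc) (O : LFn) {φ : ℝ → ℝ} {S : Finset (Z O)} {ψ : Z O → ℝ → ℝ} {e : ℝ} (he : 0 < e)
    (hφ : ∃ C L0 : ℝ, 0 < C ∧ 1 ≤ L0 ∧ Bd (Z O) (WO O φ) C L0)
    (hψ : ∀ g ∈ S, ∃ C L0 : ℝ, 0 < C ∧ 1 ≤ L0 ∧ Bd (Z O) (WO O (ψ g)) C L0) :
    ∃ C L0 : ℝ, 0 < C ∧ 1 ≤ L0 ∧ Bd (Z O) (UO O S φ ψ e) C L0 := by
  classical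
  obtain ⟨C, L0, hC, hL0, hB⟩ := hφ
  have hex : ∃ L1 : ℝ, L0 ≤ L1 ∧ 1 / e ≤ L1 ∧ ∀ g ∈ S, ∃ C : ℝ, 0 < C ∧ Bd (Z O) (WO O (ψ g)) C L1 := by
    induction S using Finset.induction_on with
    | empty => exact ⟨max L0 (1 / e), le_max_left _ _, le_max_right _ _, fun g hg => absurd hg (Finset.notMem_empty g)⟩
    | insert a s ha ih =>
        obtain ⟨L1, h1, h2, h3⟩ := ih fun g hg => hψ g (Finset.mem_insert_of_mem hg)
        obtain ⟨C', L0', hC', hL0', hB'⟩ := hψ a (Finset.mem_insert_self a s)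
        refine ⟨max L1 L0', h1.trans (le_max_left _ _), h2.trans (le_max_left _ _), fun g hg => ?_⟩
        rcases Finset.mem_insert.1 hg with rfl | hg
        · exact ⟨C', hC', hB'.mono (by linarith) le_rfl (le_max_right _ _)⟩
        · obtain ⟨C'', hC'', hB''⟩ := h3 g hg
          exact ⟨C'', hC'', hB''.mono (by linarith) le_rfl (le_max_left _ _)⟩
  obtain ⟨L1, hL1, he1, hS⟩ := hex
  have hB1 : Bd (Z O) (WO O φ) C L1 := hB.mono (by linarith) le_rfl hL1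
  choose! c hc hcB using hS
  have hsum : Bd (Z O) (fun L t => ∑ g ∈ S, Pl g (e * L) t * (WO O (ψ g) L t - WO O φ L t))
      (∑ g ∈ S, 2 * (c g + C)) L1 := by
    refine Bd.sum S fun g hg => ?_
    refine Bd.bmul ((hcB g hg).sub hB1) fun L hL t => h6.1 g (e * L) t ?_
    have : 1 / e ≤ L := he1.trans hL
    rw [div_le_iff₀ he] at this
    linarith [mul_comm e L]
  refine ⟨C + ∑ g ∈ S, 2 * (c g + C), L1, ?_, hL0.trans hL1, ?_⟩
  · have : 0 ≤ ∑ g ∈ S, 2 * (c g + C) := Finset.sum_nonneg fun g hg => by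
      have := hc g hg
      positivity
    linarith
  · exact hB1.add hsum

/-- the coefficients of the mollifier and the distance -/
theorem lin_eq (O : LFn) {N : ℕ} {F : ℝ → ℂ} (hF : DP N F) :
    ∃ a : ℕ → ℂ, ∀ t : ℝ, lin O N a t = ‖O.L (cl t) * F t - 1‖ ^ 2 / (1 / 4 + t ^ 2) := by
  obtain ⟨b, hb⟩ := hF
  refine ⟨b, fun t => ?_⟩
  unfold lin
  rw [hb t, norm_sub_rev]

/-- job UP of project GB -/
theorem t_UP (h1 : S_DEC) (h2 : S_LIM) (h3 : S_asm) (h4 : S_cost) (h5 : S_loc) (h6 : S_CNT) (h7 : S_UPL) :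
    S_UP := by
  classical
  intro O hRH η hη
  obtain ⟨⟨K0, hK⟩, hsm⟩ := h6 O hRH
  obtain ⟨β1, hβ1, hβ1', hdec⟩ := h1 O hRH
  obtain ⟨Cz, hCz, hz⟩ := h7 O hRH
  obtain ⟨C1, hC1, hz0⟩ := ML_growth hCz
  have hz1 : ∀ t : ℝ, ‖O.L (cl t)‖ ≤ C1 * (1 + |t|) ^ (1 / 8 : ℝ) := fun t => (hz t).trans (hz0 t)
  set β : ℝ := (β1 + 1) / 2 with hβdef
  have hβ0 : 0 < β := by rw [hβdef]; linarith
  have hβ1l : β1 < β := by rw [hβdef]; linarith
  have hβlt : β < 1 := by rw [hβdef]; linarith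
  have hBd : ∀ φ : ℝ → ℝ, Wt β φ → ∃ C L0 : ℝ, 0 < C ∧ 1 ≤ L0 ∧ Bd (Z O.toLFn) (WO O.toLFn φ) C L0 := by
    intro φ hφ
    obtain ⟨C, L0, hC, hL0, hd⟩ := hdec β hβ1l hβlt φ hφ
    obtain ⟨C', hC', hB⟩ := Bd_WO_of O.toLFn hφ hC1 hz1 hC hL0 hd
    exact ⟨C', L0, hC', hL0, hB⟩
  obtain ⟨φ, hφ, -, -⟩ := h4 β hβ0 hβlt 1 le_rfl 1 one_pos
  obtain ⟨Cφ, Lφ, hCφ, hLφ, hBφ⟩ := hBd φ hφ
  obtain ⟨hint, hsum, -, -⟩ := asm_of_BdO h3 K0 hK hCφ hLφ (continuous_WO O.toLFn φ) hBφ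
    (u := fun g x => Fm (mz O.toLFn g) φ x) (fun g hg x => WO_lim h2 O hRH hβ0 hφ hg x)
  set f : Z O.toLFn → ℝ := fun g => (∫ x : ℝ, ‖Fm (mz O.toLFn g) φ x‖ ^ 2) / (1 / 4 + (g : ℝ) ^ 2) with hf
  -- choose the finite set
  set η1 : ℝ := η / 8 with hη1
  have hη1p : 0 < η1 := by positivity
  obtain ⟨S, hS⟩ : ∃ S : Finset (Z O.toLFn), ∑' g, f g ≤ ∑ g ∈ S, f g + η1 := by
    have h := hsum.hasSum
    have h' := h.eventually (lt_mem_nhds (sub_lt_self _ hη1p))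
    obtain ⟨S, hS⟩ := h'.exists
    exact ⟨S, by linarith⟩
  set B : ℝ := ∑ g ∈ S, 1 / (1 / 4 + (g : ℝ) ^ 2) with hB
  have hBn : 0 ≤ B := Finset.sum_nonneg fun g _ => by positivity
  set η3 : ℝ := η / (4 * (B + 1)) with hη3
  have hη3p : 0 < η3 := by positivity
  -- the weights
  have hw : ∀ g : Z O.toLFn, ∃ ψ : ℝ → ℝ, Wt β ψ ∧
      1 / (2 * Real.pi) * ∫ x : ℝ, ‖Fm (mz O.toLFn g) ψ x‖ ^ 2 ≤ (mz O.toLFn g : ℝ) ^ 2 + η3 := by
    intro g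
    rcases Nat.eq_zero_or_pos (mz O.toLFn g) with h0 | h0
    · refine ⟨φ, hφ, ?_⟩
      rw [h0]
      have : ∀ x, Fm 0 φ x = 0 := fun x => by simp [Fm]
      simp only [this]
      simp
      exact hη3p.le
    · obtain ⟨ψ, a1, _, a3⟩ := h4 β hβ0 hβlt (mz O.toLFn g) h0 η3 hη3p
      exact ⟨ψ, a1, a3⟩
  choose ψ hψ hψc using hw
  have hψint : ∀ g : Z O.toLFn, Integrable (fun x : ℝ => ‖Fm (mz O.toLFn g) (ψ g) x‖ ^ 2) := by
    intro g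
    obtain ⟨C', L', hC', hL', hB'⟩ := hBd (ψ g) (hψ g)
    exact (asm_of_BdO h3 K0 hK hC' hL' (continuous_WO O.toLFn (ψ g)) hB'
      (u := fun g' x => Fm (mz O.toLFn g') (ψ g) x)
      (fun g' hg' x => WO_lim h2 O hRH hβ0 (hψ g) hg' x)).1 g g.2
  -- the total
  set M : ℝ := ∑' g : Z O.toLFn, (mz O.toLFn g : ℝ) ^ 2 / (1 / 4 + (g : ℝ) ^ 2) with hM
  set T : ℝ → ℝ := fun e => ∑ g ∈ S, (1 / (2 * Real.pi) *
    ∫ x : ℝ, ‖Fm (mz O.toLFn g) φ x + qq e x * (Fm (mz O.toLFn g) (ψ g) x - Fm (mz O.toLFn g) φ x)‖ ^ 2) /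
      (1 / 4 + (g : ℝ) ^ 2) with hT
  set T0 : ℝ := ∑ g ∈ S, (1 / (2 * Real.pi) * ∫ x : ℝ, ‖Fm (mz O.toLFn g) (ψ g) x‖ ^ 2) /
    (1 / 4 + (g : ℝ) ^ 2) with hT0
  have hTlim : Tendsto T (𝓝[>] 0) (𝓝 T0) := by
    refine tendsto_finsetSum _ fun g _ => ?_
    exact ((tendsto_cost hφ (hψ g) (mz O.toLFn g) (hint g g.2) (hψint g)).const_mul _).div_const _
  have hT0M : T0 ≤ M + η / 4 := by
    have s1 : T0 ≤ ∑ g ∈ S, ((mz O.toLFn g : ℝ) ^ 2 + η3) / (1 / 4 + (g : ℝ) ^ 2) := by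
      refine Finset.sum_le_sum fun g _ => ?_
      gcongr
      exact hψc g
    have s2 : ∑ g ∈ S, ((mz O.toLFn g : ℝ) ^ 2 + η3) / (1 / 4 + (g : ℝ) ^ 2) =
        ∑ g ∈ S, (mz O.toLFn g : ℝ) ^ 2 / (1 / 4 + (g : ℝ) ^ 2) + η3 * B := by
      rw [hB, Finset.mul_sum, ← Finset.sum_add_distrib]
      refine Finset.sum_congr rfl fun g _ => ?_
      ring
    have s3 : ∑ g ∈ S, (mz O.toLFn g : ℝ) ^ 2 / (1 / 4 + (g : ℝ) ^ 2) ≤ M := by
      rw [hM]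
      exact hsm.sum_le_tsum S fun g _ => by positivity
    have s4 : η3 * B ≤ η / 4 := by
      rw [hη3, div_mul_eq_mul_div, div_le_div_iff₀ (by positivity) (by norm_num)]
      nlinarith
    linarith
  have hlim2 : Tendsto (fun e : ℝ => (1 + e) * (T e + 2 * η1)) (𝓝[>] 0) (𝓝 ((1 + 0) * (T0 + 2 * η1))) := by
    refine Tendsto.mul ?_ (hTlim.add_const _)
    exact (tendsto_const_nhds.add (tendsto_id.mono_left nhdsWithin_le_nhds))
  have hlt : (1 + 0) * (T0 + 2 * η1) < M + η := by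
    rw [hη1]
    linarith
  obtain ⟨e, he, hepos⟩ : ∃ e : ℝ, (1 + e) * (T e + 2 * η1) < M + η ∧ 0 < e :=
    ((hlim2.eventually (gt_mem_nhds hlt)).and (eventually_mem_nhdsWithin)).exists
  -- assembly for the combination
  obtain ⟨CU, LU, hCU, hLU, hBU⟩ := Bd_UO h5 O.toLFn hepos (φ := φ) (S := S) (ψ := ψ) ⟨Cφ, Lφ, hCφ, hLφ, hBφ⟩
    (fun g _ => hBd (ψ g) (hψ g))
  obtain ⟨-, hsumU, hintU, hev⟩ := asm_of_BdO h3 K0 hK hCU hLU (UO_continuous O.toLFn S φ ψ e) hBU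
    (u := uO O.toLFn S φ ψ e) (fun g hg x => UO_lim h2 h5 O hRH hβ0 hφ S (fun g _ => hψ g) hepos hg x)
  set F : Z O.toLFn → ℝ := fun g => (∫ x : ℝ, ‖uO O.toLFn S φ ψ e g x‖ ^ 2) / (1 / 4 + (g : ℝ) ^ 2) with hF
  have hFS : ∀ g ∉ S, F g = f g := by
    intro g hg
    simp only [hF, hf]
    congr 2
    funext x
    rw [uO_of_not_mem φ ψ e x hg]
  have hFsum : ∑' g, F g ≤ ∑ g ∈ S, F g + η1 := by
    have t1 : ∑' g, F g - ∑' g, f g = ∑ g ∈ S, (F g - f g) := by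
      rw [← Summable.tsum_sub hsumU hsum]
      refine tsum_eq_sum fun g hg => ?_
      rw [hFS g hg, sub_self]
    rw [Finset.sum_sub_distrib] at t1
    linarith
  have hFT : 1 / (2 * Real.pi) * ∑ g ∈ S, F g = T e := by
    simp only [hT, hF]
    rw [Finset.mul_sum]
    refine Finset.sum_congr rfl fun g hg => ?_
    rw [mul_div_assoc]
    congr 3
    funext x
    rw [uO_of_mem φ ψ e x hg]
  -- the bound in `L`
  have hpi : 1 / (2 * Real.pi) ≤ 1 := by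
    rw [div_le_one (by positivity)]
    linarith [Real.pi_gt_three]
  have hevL : ∀ᶠ L : ℝ in atTop, 0 ≤ L ∧ LU ≤ L ∧ (1 + e) * L * (1 / (2 * Real.pi) *
      ∫ t : ℝ, ‖UO O.toLFn S φ ψ e L t‖ ^ 2 / (1 / 4 + t ^ 2)) ≤ M + η := by
    filter_upwards [hev η1 hη1p, eventually_ge_atTop 0, eventually_ge_atTop LU] with L hL hL0 hL1
    refine ⟨hL0, hL1, ?_⟩
    have u1 : L * ∫ t : ℝ, ‖UO O.toLFn S φ ψ e L t‖ ^ 2 / (1 / 4 + t ^ 2) ≤ ∑ g ∈ S, F g + η1 + η1 :=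
      hL.trans (by linarith)
    have u2 : 1 / (2 * Real.pi) * (L * ∫ t : ℝ, ‖UO O.toLFn S φ ψ e L t‖ ^ 2 / (1 / 4 + t ^ 2)) ≤
        T e + 2 * η1 := by
      have := mul_le_mul_of_nonneg_left u1 (by positivity : (0 : ℝ) ≤ 1 / (2 * Real.pi))
      refine this.trans ?_
      rw [add_assoc, mul_add, hFT]
      nlinarith
    calc (1 + e) * L * (1 / (2 * Real.pi) * ∫ t : ℝ, ‖UO O.toLFn S φ ψ e L t‖ ^ 2 / (1 / 4 + t ^ 2))
        = (1 + e) * (1 / (2 * Real.pi) * (L * ∫ t : ℝ, ‖UO O.toLFn S φ ψ e L t‖ ^ 2 / (1 / 4 + t ^ 2))) := by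
          ring
      _ ≤ (1 + e) * (T e + 2 * η1) := by
          have : 0 ≤ 1 + e := by linarith
          gcongr
      _ ≤ M + η := he.le
  -- passage to `N`
  have hLN : Tendsto (fun N : ℕ => Real.log N / (1 + e)) atTop atTop :=
    (Real.tendsto_log_atTop.comp tendsto_natCast_atTop_atTop).atTop_div_const (by linarith)
  filter_upwards [hLN.eventually hevL, eventually_ge_atTop 1] with N hN hN1
  obtain ⟨hN0, hNU, hN2⟩ := hN
  have he1 : (1 + e) ≠ 0 := by linarith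
  have hexp : Real.exp (e * (Real.log N / (1 + e)) + Real.log N / (1 + e)) ≤ N := by
    have : e * (Real.log N / (1 + e)) + Real.log N / (1 + e) = Real.log N := by
      field_simp
      ring
    rw [this, Real.exp_log (by exact_mod_cast (by omega : 0 < N))]
  obtain ⟨a, ha⟩ := lin_eq O.toLFn (DP_MO O.toLFn S φ ψ hepos.le hN0 hexp)
  have ha' : lin O.toLFn N a = fun t => ‖UO O.toLFn S φ ψ e (Real.log N / (1 + e)) t‖ ^ 2 / (1 / 4 + t ^ 2) := by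
    funext t
    rw [ha t, UO_eq]
  refine ⟨a, ?_, ?_⟩
  · rw [ha']
    exact hintU _ hNU
  · rw [ha']
    calc (1 / (2 * Real.pi) * ∫ t : ℝ, ‖UO O.toLFn S φ ψ e (Real.log N / (1 + e)) t‖ ^ 2 / (1 / 4 + t ^ 2)) *
          Real.log N
        = (1 + e) * (Real.log N / (1 + e)) * (1 / (2 * Real.pi) *
          ∫ t : ℝ, ‖UO O.toLFn S φ ψ e (Real.log N / (1 + e)) t‖ ^ 2 / (1 / 4 + t ^ 2)) := by
          rw [mul_div_cancel₀ _ he1]
          ring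
      _ ≤ M + η := hN2

end Pool.Agent.Q174.GB
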